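import Pool.Agent.H3.PendA

set_option autoImplicit false

namespace Pool.Agent.Results.MP_e5a79a_an.Pendulum

open Filter Topology

/-- viscosity solutions on the circle `ℝ/ℤ` of `H(x, v') = k` -/
def IsViscSol (H : ℝ → ℝ → ℝ) (k : ℝ) (v : ℝ → ℝ) : Prop :=
  Continuous v ∧ Function.Periodic v 1 ∧
    (∀ φ : ℝ → ℝ, ContDiff ℝ 1 φ → ∀ x, IsLocalMax (v - φ) x → H x (deriv φ x) ≤ k) ∧
    (∀ φ : ℝ → ℝ, ContDiff ℝ 1 φ → ∀ x, IsLocalMin (v - φ) x → k ≤ H x (deriv φ x))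

def shift (H : ℝ → ℝ → ℝ) (c : ℝ) : ℝ → ℝ → ℝ := fun x p => H x (p - c)

noncomputable def lag (H : ℝ → ℝ → ℝ) (x w : ℝ) : ℝ := ⨆ p : ℝ, (p * w - H x p)

noncomputable def minAction (H : ℝ → ℝ → ℝ) (k x y t : ℝ) : EReal :=
  ⨅ (γ : ℝ → ℝ) (_ : ContDiff ℝ 1 γ ∧ γ 0 = x ∧ ∃ n : ℤ, γ t = y + n),
    ((∫ s in (0 : ℝ)..t, (lag H (γ s) (deriv γ s) + k) : ℝ) : EReal)

def aubry (H : ℝ → ℝ → ℝ) (k : ℝ) : Set ℝ := {x | liminf (minAction H k x x) atTop = 0}

noncomputable def lipNorm (K : Set ℝ) (f : ℝ → ℝ) : ENNReal :=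
  (⨆ x ∈ K, ‖f x‖ₑ) + ⨆ x ∈ K, ⨆ y ∈ K, ⨆ _ : (x : UnitAddCircle) ≠ (y : UnitAddCircle),
    edist (f x) (f y) / edist (x : UnitAddCircle) (y : UnitAddCircle)

open Pool.Agent.H3.Pend
open scoped Real

noncomputable def Hk (k : ℝ) : ℝ → ℝ → ℝ := fun x p => (p + a k) ^ 2 / 2 - Real.sin (π * x) ^ 2 / 2

lemma shift_eq (k : ℝ) : shift (Hk 0) (a 0 - a k) = Hk k := by
  funext x p; simp only [shift, Hk]; ring

lemma lag_eq {k : ℝ} (hk : 0 ≤ k) (x w : ℝ) :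
    lag (Hk k) x w + k = (w - q k x) ^ 2 / 2 + (q k x - a k) * w := by
  have : lag (Hk k) x w = w ^ 2 / 2 - a k * w + Real.sin (π * x) ^ 2 / 2 :=
    IsGreatest.csSup_eq ⟨⟨w - a k, by simp only [Hk]; ring⟩, by
      rintro _ ⟨p, rfl⟩
      simp only [Hk]
      nlinarith [sq_nonneg (p + a k - w)]⟩
  rw [this]
  linear_combination (-1 / 2) * q_sq hk x

lemma visc {k : ℝ} (hk : 0 ≤ k) : IsViscSol (Hk k) k (v k) := by
  have e : ∀ x, Hk k x (q k x - a k) = k := fun x => by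
    simp only [Hk]; linear_combination (1 / 2) * q_sq hk x
  refine ⟨(v_c1 k).continuous, v_per k, fun φ hφ x h => ?_, fun φ hφ x h => ?_⟩
  · rw [← sub_eq_zero.mp (h.hasDerivAt_eq_zero ((v_deriv k x).sub
      (hφ.differentiable_one x).hasDerivAt)), e]
  · rw [← sub_eq_zero.mp (h.hasDerivAt_eq_zero ((v_deriv k x).sub
      (hφ.differentiable_one x).hasDerivAt)), e]

lemma uniq {k : ℝ} (hk : 0 ≤ k) {w : ℝ → ℝ} (h : IsViscSol (Hk k) k w) :
    ∃ C, ∀ x, w x = v k x + C :=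
  unique h.1 h.2.1 fun φ hφ x hx => by
    have h1 := h.2.2.1 φ hφ x hx
    simp only [Hk] at h1
    have := (abs_le_of_sq_le_sq' (a := deriv φ x + a k) (by linarith [q_sq hk x])
      (q_nonneg k x)).2
    linarith

lemma aubry_eq {k : ℝ} (hk : 0 ≤ k) : aubry (Hk k) k = Set.univ := by
  refine Set.eq_univ_of_forall fun x => le_antisymm ?_ ?_
  · by_contra hc
    obtain ⟨ε, h1, h2⟩ := EReal.lt_iff_exists_real_btwn.mp (not_le.mp hc)
    refine h2.not_ge (liminf_le_of_frequently_le' (frequently_atTop.mpr fun T => ?_))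
    obtain ⟨t, ht, γ, h3, h4, ⟨n, h5⟩, h6⟩ := cheap hk x T ε (by exact_mod_cast h1)
    refine ⟨t, ht, (iInf₂_le γ ⟨h3, h4, n, h5⟩).trans (EReal.coe_le_coe_iff.mpr ?_)⟩
    simp only [lag_eq hk]
    rwa [action h3 (h4 ▸ h5)]
  · refine le_liminf_of_le (by isBoundedDefault) ?_
    filter_upwards [eventually_ge_atTop 0] with t ht
    refine le_iInf₂ fun γ ⟨h3, h4, n, h5⟩ => EReal.coe_nonneg.mpr ?_
    simp only [lag_eq hk]
    rw [action h3 (h4 ▸ h5)]
    exact intervalIntegral.integral_nonneg ht fun s _ => by positivity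

theorem result : ∃ H : ℝ → ℝ → ℝ,
    ContDiff ℝ ⊤ (Function.uncurry H) ∧ (∀ x p, H (x + 1) p = H x p) ∧
    (∀ x p, 0 < deriv (deriv (H x)) p) ∧ (∀ A : ℝ, ∃ B : ℝ, ∀ x p, A * |p| - B ≤ H x p) ∧
    aubry H 0 = Set.univ ∧
    ∃ u : ℝ → ℝ, IsViscSol H 0 u ∧ (∀ w, IsViscSol H 0 w → ∃ C, ∀ x, w x = u x + C) ∧
      ∃ c α : ℕ → ℝ, Tendsto c atTop (𝓝 0) ∧ ∀ j,
        (∃ v, IsViscSol (shift H (c j)) (α j) v) ∧
        ∀ v, IsViscSol (shift H (c j)) (α j) v →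
          1 ≤ lipNorm (aubry (shift H (c j)) (α j)) (deriv v - deriv u) := by
  refine ⟨Hk 0, ?_, fun x p => ?_, fun x p => ?_, fun A => ⟨A ^ 2 / 2 + |A| * |a 0| + 1,
    fun x p => ?_⟩, aubry_eq le_rfl, v 0, visc le_rfl, fun w => uniq le_rfl,
    fun j => a 0 - a (0 + (1 / ((j : ℝ) + 1)) ^ 2 / 2), fun j => 0 + (1 / ((j : ℝ) + 1)) ^ 2 / 2,
    squeeze_zero_norm (fun j => a_close (by positivity)) tendsto_one_div_add_atTop_nhds_zero_nat,
    fun j => ?_⟩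
  · unfold Hk Function.uncurry; fun_prop
  · simp [Hk, mul_add, Real.sin_add_pi]
  · have : deriv (Hk 0 x) = fun p => p + a 0 := funext fun p => by
      have : HasDerivAt (Hk 0 x) _ p := ((((hasDerivAt_id p).add_const (a 0)).pow 2).div_const
        2).sub_const (Real.sin (π * x) ^ 2 / 2)
      rw [this.deriv]
      simp
    simp [this]
  · simp only [Hk]
    have h1 : |p| ≤ |p + a 0| + |a 0| := by simpa using abs_sub (p + a 0) (a 0)
    nlinarith [Real.sin_sq_le_one (π * x), sq_nonneg (|p + a 0| - |A|), sq_abs (p + a 0),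
      sq_abs A, le_abs_self A, abs_nonneg A, abs_nonneg p]
  · beta_reduce
    set η : ℝ := 1 / ((j : ℝ) + 1) with hη
    have η0 : 0 < η := by positivity
    have hk : 0 ≤ 0 + η ^ 2 / 2 := by positivity
    simp only [shift_eq, aubry_eq hk]
    refine ⟨⟨_, visc hk⟩, fun w hw => ?_⟩
    obtain ⟨C, hC⟩ := uniq hk hw
    have hd : deriv w = deriv (v (0 + η ^ 2 / 2)) := by
      rw [show w = fun x => v (0 + η ^ 2 / 2) x + C from funext hC]
      exact funext fun x => deriv_add_const _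
    obtain ⟨x, x0, x1, hx⟩ := jump η0
    have hn : ‖(x : UnitAddCircle)‖ = |x| :=
      (AddCircle.norm_coe_eq_abs_iff (1 : ℝ) one_ne_zero).mpr (by rw [abs_of_pos x0, abs_one]; exact x1)
    rw [abs_of_pos x0] at hn
    have hne : (x : UnitAddCircle) ≠ ((0 : ℝ) : UnitAddCircle) := by
      intro h
      rw [h] at hn
      simp at hn
      linarith
    refine le_trans ?_ le_add_self
    refine le_iSup₂_of_le x trivial (le_iSup₂_of_le 0 trivial (le_iSup_of_le hne ?_))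
    rw [ENNReal.le_div_iff_mul_le (Or.inl (edist_pos.mpr hne).ne') (Or.inl (edist_ne_top _ _)),
      one_mul, edist_dist, edist_dist]
    refine ENNReal.ofReal_le_ofReal ?_
    rw [hd, v_deriv', v_deriv', Real.dist_eq, abs_sub_comm, AddCircle.coe_zero, dist_zero_right,
      hn]
    refine le_trans ?_ (le_abs_self _)
    simp only [Pi.sub_apply]
    linarith

end Pool.Agent.Results.MP_e5a79a_an.Pendulum
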